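import Mathlib

open Set Filter Topology

namespace Pool.Agent.Results.MP_110f0a_gt.KNotFU

theorem result : ∃ (X : Type) (_ : TopologicalSpace X), T35Space X ∧
    TopologicalSpace.IsTopologicalBasis {U : Set X | IsClopen U} ∧
    (∀ A : Set {f : X → Bool // Continuous f},
      (∀ K : Set {f : X → Bool // Continuous f}, IsCompact K →
        IsClosed ((↑) ⁻¹' A : Set K)) → IsClosed A) ∧
    ¬ (∀ (A : Set {f : X → Bool // Continuous f}) (z : {f : X → Bool // Continuous f}),
      z ∈ closure A → ∃ s : ℕ → {f : X → Bool // Continuous f},
        (∀ n, s n ∈ A) ∧ Tendsto s atTop (𝓝 z)) := by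
  classical
  letI : TopologicalSpace (Set ℕ) := ⊥
  haveI : DiscreteTopology (Set ℕ) := ⟨rfl⟩
  refine ⟨Set ℕ, ⊥, inferInstance, ?_, ?_, ?_⟩
  · refine TopologicalSpace.isTopologicalBasis_of_isOpen_of_nhds (fun U hU => hU.2) ?_
    intro a U ha _
    exact ⟨U, isClopen_discrete U, ha, subset_rfl⟩
  · intro A hA
    have hc : CompactSpace {f : Set ℕ → Bool // Continuous f} := by
      refine (isCompact_iff_compactSpace (s := {f : Set ℕ → Bool | Continuous f})).1 ?_
      have : {f : Set ℕ → Bool | Continuous f} = univ :=
        eq_univ_of_forall fun f => continuous_of_discreteTopology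
      rw [this]; exact isCompact_univ
    have h := hA univ isCompact_univ
    have h2 := h.preimage (Homeomorph.Set.univ _).symm.continuous
    exact h2
  · intro h
    let A : Set {f : Set ℕ → Bool // Continuous f} := {f | {x | f.1 x = true}.Finite}
    let z : {f : Set ℕ → Bool // Continuous f} := ⟨fun _ => true, continuous_const⟩
    have hz : z ∈ closure A := by
      have ht : Tendsto (fun F : Finset (Set ℕ) =>
          (⟨fun x => decide (x ∈ F), continuous_of_discreteTopology⟩ :
            {f : Set ℕ → Bool // Continuous f})) atTop (𝓝 z) := by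
        rw [tendsto_subtype_rng, tendsto_pi_nhds]
        intro x
        refine tendsto_const_nhds.congr' ?_
        filter_upwards [eventually_ge_atTop ({x} : Finset (Set ℕ))] with F hF
        have : x ∈ F := hF (Finset.mem_singleton_self x)
        simp [z, this]
      refine mem_closure_of_tendsto ht (Eventually.of_forall fun F => ?_)
      refine F.finite_toSet.subset ?_
      intro x hx
      simpa using hx
    obtain ⟨s, hsA, hs⟩ := h A z hz
    have hcount : (univ : Set (Set ℕ)).Countable := by
      refine (countable_iUnion fun n => (hsA n).countable).mono ?_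
      intro x _
      rw [tendsto_subtype_rng, tendsto_pi_nhds] at hs
      have := hs x
      rw [nhds_discrete, tendsto_pure] at this
      obtain ⟨n, hn⟩ := this.exists
      exact mem_iUnion.2 ⟨n, hn⟩
    haveI : Uncountable (Set ℕ) := by
      rw [← Cardinal.aleph0_lt_mk_iff, Cardinal.mk_set, Cardinal.mk_nat]
      exact Cardinal.cantor _
    exact Set.not_countable_univ hcount

end Pool.Agent.Results.MP_110f0a_gt.KNotFU
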